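import Pool.Agent.E8helper71.CP.Y706.CH.Stm
import Pool.Agent.E8helper71.CP.Y165.BI.Lln

/-!
# The law of large numbers for the critical points

Adaptation of `Pool.Agent.E8helper71.CP.Y165.BI.t_LLN` (helper165) to `2 d - 2` points.
-/

namespace Pool.Agent.E8helper71.CP.Y686.CH

open Finset Pool.Agent.E8helper71.CP.Y706.BI Pool.Agent.E8helper71.CP.Y706.CH Pool.Agent.E8helper71.CP.Y165.BI

universe u

theorem t_LLN2 : S_LLN2.{u} := by
  classical
  intro d hd ε hε
  set q : ℕ := 2 * d - 2 with hq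
  refine ⟨51 * (q : ℝ) ^ 2 * d ^ 2 / ε ^ 2, by positivity, ?_⟩
  intro X f r E hE hf hr g hgs hgE hg ρ hρ hlow c b n hc J hJ hJn
  have hd2 : (2 : ℝ) ≤ d := by exact_mod_cast hd
  have hJp : (0 : ℝ) < J := by exact_mod_cast hJ
  have hcorr : ∀ c c' : X, (∀ j ≤ n, ¬ E (f^[j] c) b ∧ g (f^[j] c) b ≤ 2 * ρ) →
      (∀ j ≤ n, ¬ E (f^[j] c') b ∧ g (f^[j] c') b ≤ 2 * ρ) → ∀ l < J, ∀ m < J,
      (Av r)^[n] (fun y => g (f^[l] y) c * g (f^[m] y) c') b ≤
      (1 / 2) ^ ((m - l) + (l - m)) * (17 * d ^ 2 * ρ ^ 2) := by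
    intro c c' h h' l hl m hm
    rcases le_total l m with hlm | hlm
    · have := it_corr hd hE hf hr hgs hgE hg hρ hlow b n c c' h h' l m hlm (by omega)
      have e : m - l + (l - m) = m - l := by omega
      rw [e]
      exact this
    · have := it_corr hd hE hf hr hgs hgE hg hρ hlow b n c' c h' h m l hlm (by omega)
      have e : m - l + (l - m) = l - m := by omega
      rw [e]
      have e2 : (fun y => g (f^[l] y) c * g (f^[m] y) c') =
          fun y => g (f^[m] y) c' * g (f^[l] y) c := by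
        funext y
        ring
      rw [e2]
      exact this
  set D : X → ℝ := fun y => ∑ j ∈ range J, ∑ i, g (f^[j] y) (c i) with hD
  have hsq : (Av r)^[n] (fun y => D y ^ 2) b ≤
      3 * J * ((q : ℝ) ^ 2 * (17 * d ^ 2 * ρ ^ 2)) := by
    have e1 : (fun y => D y ^ 2) = fun y => ∑ l ∈ range J, ∑ m ∈ range J, ∑ i, ∑ i',
        g (f^[l] y) (c i) * g (f^[m] y) (c i') := by
      funext y
      rw [hD, sq, sum_mul_sum]
      apply sum_congr rfl
      intro l _
      apply sum_congr rfl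
      intro m _
      rw [sum_mul_sum]
    rw [e1, it_sum]
    have e2 : ∀ l ∈ range J, (Av r)^[n] (fun y => ∑ m ∈ range J, ∑ i, ∑ i',
        g (f^[l] y) (c i) * g (f^[m] y) (c i')) b ≤
        ∑ m ∈ range J, (1 / 2) ^ ((m - l) + (l - m)) * ((q : ℝ) ^ 2 * (17 * d ^ 2 * ρ ^ 2)) := by
      intro l hl
      rw [it_sum]
      apply sum_le_sum
      intro m hm
      rw [mem_range] at hl hm
      rw [it_sum]
      have e3 : ∀ i ∈ (univ : Finset (Fin q)), (Av r)^[n] (fun y => ∑ i',
          g (f^[l] y) (c i) * g (f^[m] y) (c i')) b ≤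
          q * ((1 / 2) ^ ((m - l) + (l - m)) * (17 * d ^ 2 * ρ ^ 2)) := by
        intro i _
        rw [it_sum]
        refine (sum_le_sum fun i' _ => hcorr (c i) (c i') (fun j hj => hc j hj i)
          (fun j hj => hc j hj i') l hl m hm).trans (le_of_eq ?_)
        rw [sum_const, card_univ, Fintype.card_fin, nsmul_eq_mul]
      refine (sum_le_sum e3).trans (le_of_eq ?_)
      rw [sum_const, card_univ, Fintype.card_fin, nsmul_eq_mul]
      ring
    refine (sum_le_sum e2).trans ?_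
    simp_rw [← sum_mul]
    exact mul_le_mul_of_nonneg_right (geo_sum J) (by positivity)
  -- Chebyshev
  have hJL : 0 < J * ε * ρ := by positivity
  have hch : (Av r)^[n] (fun y => if J * ε * ρ ≤ ∑ j ∈ range J, ∑ i, g (f^[j] y) (c i)
      then (1 : ℝ) else 0) b ≤
      (Av r)^[n] (fun y => (1 / (J * ε * ρ) ^ 2) * D y ^ 2) b := by
    apply it_mono hE hf hr
    intro y _
    split_ifs with hy
    · rw [div_mul_eq_mul_div, le_div_iff₀ (by positivity), one_mul, one_mul]
      exact pow_le_pow_left₀ hJL.le hy 2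
    · positivity
  refine hch.trans ?_
  rw [it_smul]
  have h7 : (1 / (J * ε * ρ) ^ 2) * (Av r)^[n] (fun y => D y ^ 2) b ≤
      (1 / (J * ε * ρ) ^ 2) * (3 * J * ((q : ℝ) ^ 2 * (17 * d ^ 2 * ρ ^ 2))) :=
    mul_le_mul_of_nonneg_left hsq (by positivity)
  refine h7.trans (le_of_eq ?_)
  field_simp
  ring

end Pool.Agent.E8helper71.CP.Y686.CH
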